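import Pool.Agent.W292.NR.Stm

/-!
# Slacks at the vertices
-/

set_option autoImplicit false

namespace Pool.Agent.W762.NR

open Finset Pool.Agent.W292.NR

theorem psum_bd (v : ℕ → Bool) (a i : ℕ) : 0 ≤ psum v a i ∧ 2 * psum v a i + 1 ≤ 3 ^ i := by
  induction i with
  | zero => simp [psum]
  | succ i ih =>
    obtain ⟨h1, h2⟩ := ih
    have h3 : (1 : ℚ) ≤ 3 ^ i := one_le_pow₀ (by norm_num)
    have h4 : (3 : ℚ) ^ (i + 1) = 3 * 3 ^ i := by ring
    rw [h4]
    unfold psum
    split_ifs with h
    · constructor <;> linarith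
    · constructor <;> linarith

/-- the value of the real variable of the cell `u` -/
def VV (st : ℕ → ℕ) (v : ℕ → Bool) (u : ℕ) : ℚ :=
  if v u = true then 3 ^ (u - st u) - 2 * psum v (st u) (u - st u) else 0

theorem vert_false (k : ℕ) (st : ℕ → ℕ) (v : ℕ → Bool) (u : Fin k) :
    vert k st v (u, false) = VV st v u := by
  unfold vert VV
  simp

theorem vert_true (k : ℕ) (st : ℕ → ℕ) (v : ℕ → Bool) (u : Fin k) :
    vert k st v (u, true) = 0 := by
  unfold vert
  simp

theorem sum_VV {k : ℕ} {st ln : ℕ → ℕ} (hC : Chains k st ln) (v : ℕ → Bool) (t : ℕ) (ht : t < k) :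
    ∀ i, st t + i ≤ t → ∑ x ∈ range i, VV st v (st t + x) = psum v (st t) i := by
  intro i
  induction i with
  | zero => intro _; simp [psum]
  | succ i ih =>
    intro hi
    rw [sum_range_succ, ih (by omega)]
    have h1 := hC.same t ht (st t + i) (by omega) (by have := hC.lt t ht; omega)
    unfold VV
    rw [h1.1, Nat.add_sub_cancel_left]
    conv_rhs => unfold psum
    split_ifs with h
    · ring
    · ring

theorem sum_Fin {k : ℕ} {st ln : ℕ → ℕ} (hC : Chains k st ln) (v : ℕ → Bool) (t : Fin k) :
    (∑ u : Fin k, if st t ≤ (u : ℕ) ∧ u < t then VV st v u else 0) =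
      psum v (st t) ((t : ℕ) - st t) := by
  have h1 := Fin.sum_univ_eq_sum_range
    (fun u : ℕ => if st t ≤ u ∧ u < (t : ℕ) then VV st v u else 0) k
  have h2 : (∑ u : Fin k, if st t ≤ (u : ℕ) ∧ u < t then VV st v u else 0) =
      ∑ u : Fin k, if st t ≤ (u : ℕ) ∧ (u : ℕ) < (t : ℕ) then VV st v u else 0 := by
    apply sum_congr rfl
    intro u _
    rfl
  rw [h2, h1, ← sum_filter]
  have h3 : (range k).filter (fun u => st t ≤ u ∧ u < (t : ℕ)) = Ico (st t) t := by
    ext u
    simp only [mem_filter, mem_range, mem_Ico]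
    have := t.2
    omega
  rw [h3, sum_Ico_eq_sum_range]
  apply sum_VV hC v t t.2
  have := hC.le t t.2
  omega

theorem slack : S_SLACK := by
  intro k st ln hC v t
  have hb := psum_bd v (st t) ((t : ℕ) - st t)
  refine ⟨?_, ?_, ?_, ?_, ?_⟩
  · unfold wid
    linarith [hb.2]
  · show vert k st v (t, false) = _
    rw [vert_false]
    unfold VV wid
    rfl
  · show (((chainLP k st).b (t, false) : ℤ) : ℚ) -
      ∑ j, (((chainLP k st).A (t, false) j : ℤ) : ℚ) * vert k st v j = _
    have h1 : ∀ j : Fin k × Bool, (((chainLP k st).A (t, false) j : ℤ) : ℚ) * vert k st v j =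
        if j.2 = false then (if j.1 = t then VV st v j.1 else 0) +
          2 * (if st t ≤ (j.1 : ℕ) ∧ j.1 < t then VV st v j.1 else 0) else 0 := by
      rintro ⟨u, s⟩
      cases s
      · rw [vert_false]
        simp only [chainLP, if_true]
        by_cases h2 : u = t
        · subst h2
          simp
        · by_cases h3 : st t ≤ (u : ℕ) ∧ u < t
          · simp [h2, h3]
          · simp [h2, h3]
      · rw [vert_true]
        simp
    have h4 : ∑ j, (((chainLP k st).A (t, false) j : ℤ) : ℚ) * vert k st v j =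
        VV st v t + 2 * psum v (st t) ((t : ℕ) - st t) := by
      rw [sum_congr rfl (fun j _ => h1 j), Fintype.sum_prod_type]
      simp only [Fintype.sum_bool, Bool.true_eq_false, if_false, if_true, zero_add]
      rw [sum_add_distrib, ← mul_sum, sum_Fin hC v t]
      simp
    rw [h4]
    have h5 : (((chainLP k st).b (t, false) : ℤ) : ℚ) = 3 ^ ((t : ℕ) - st t) := by
      simp [chainLP]
    rw [h5]
    unfold VV wid
    split_ifs with h
    · ring
    · ring
  · show vert k st v (t, true) = 0
    exact vert_true k st v t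
  · show (((chainLP k st).b (t, true) : ℤ) : ℚ) -
      ∑ j, (((chainLP k st).A (t, true) j : ℤ) : ℚ) * vert k st v j = 1
    have h1 : ∀ j : Fin k × Bool, (((chainLP k st).A (t, true) j : ℤ) : ℚ) * vert k st v j = 0 := by
      rintro ⟨u, s⟩
      cases s
      · simp [chainLP]
      · rw [vert_true]
        simp
    rw [sum_congr rfl (fun j _ => h1 j)]
    simp [chainLP]

end Pool.Agent.W762.NR
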